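import Pool.Agent.Work.MP_659252_gt.QR.D.BrD
import Pool.Agent.Work.MP_659252_gt.QR.J.RepC
import Pool.Agent.Work.MP_659252_gt.QR.J.TTT
import Pool.Agent.Work.MP_659252_gt.QR.J.StarA
import Pool.Agent.Work.MP_659252_gt.QR.J.Nbh
import Pool.Agent.Work.MP_659252_gt.QR.L.BilB

/-!
# Two layered families: notions for the analysis part
-/

namespace Pool.Agent.Work.MP_659252_gt.SP

open scoped ContDiff Topology
open Pool.Agent.Work.MP_659252_gt.Z (V Ten val Tan InT)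
open Pool.Agent.Work.MP_659252_gt.QR

variable {d : ℕ}

/-- Two layered families, the first one at `Y`, the second one at `P`; the sums of their directions are tangent to the
Zoll metrics. -/
structure Two (f₁ w₁ : V d → ℝ) (k₁ : Ten d) (lo₁ hi₁ : ℝ) (Y : V d) (f₂ w₂ : V d → ℝ) (k₂ : Ten d)
    (lo₂ hi₂ : ℝ) (P : V d) : Prop where
  L₁ : Loc f₁ w₁ k₁ lo₁ hi₁ Y
  L₂ : Loc f₂ w₂ k₂ lo₂ hi₂ P
  sum : ∀ b₁ b₂ : ℝ → ℝ, Bump lo₁ hi₁ b₁ → Bump lo₂ hi₂ b₂ →
    InT (fun x i j => dir f₁ w₁ k₁ b₁ x i j + dir f₂ w₂ k₂ b₂ x i j)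

/-- The derivative of `Kq` along the rotation of the line towards `n`. -/
noncomputable def Eg (f w : V d → ℝ) (k : Ten d) (P v n : V d) (τ : ℝ) : ℝ :=
  deriv (fun η : ℝ => Kq f w k (P + τ • (v + η • n)) (v + η • n)) 0

end Pool.Agent.Work.MP_659252_gt.SP
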