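import Pool.Agent.Work.MP_659252_gt.Y.Defs

/-!
# Superpositions of families of cones: the objects of the theorem

Nested families (`Nested`), the level function and the tensor `conf` are those of
`Pool.Agent.Work.MP_659252_gt.Y.Defs`; `InT` (tangent vectors to the space of Zoll metrics) is that of
`Pool.Agent.Work.MP_659252_gt.Z.Defs`.
-/

namespace Pool.Agent.Work.MP_659252_gt.SP

open scoped ContDiff
open Pool.Agent.Work.MP_659252_gt.Z (V Ten)
open Pool.Agent.Work.MP_659252_gt.Y (Path Q Nested)

variable {d : ℕ}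

/-- A nested family of solid cones: all the cones `Q_s ≤ 0`, `0 < s < T`, have interior points. -/
structure Solid (A : Path d) (T : ℝ) : Prop where
  pos : 0 < T
  nested : Nested A T
  solid : ∀ s ∈ Set.Ioo 0 T, ∃ x : V d, Q A s x x < 0

/-- All the cones of the family `(A, T)` are contained in all the cones of the family `(A', T')`. -/
def Inside (A : Path d) (T : ℝ) (A' : Path d) (T' : ℝ) : Prop :=
  ∀ s ∈ Set.Ioo 0 T, ∀ s' ∈ Set.Ioo 0 T', ∀ x : V d, Q A s x x ≤ 0 → Q A' s' x x ≤ 0

/-- The profile `B` is smooth with compact support in the open interval `(0, T)`. -/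
def Prof (T : ℝ) (B : ℝ → ℝ) : Prop :=
  ContDiff ℝ ∞ B ∧ ∃ a c, 0 < a ∧ c < T ∧ ∀ s, s ∉ Set.Icc a c → B s = 0

end Pool.Agent.Work.MP_659252_gt.SP
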