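import Pool.Agent.Work.MP_659252_gt.SP.C.Nec
import Pool.Agent.Work.MP_659252_gt.SP.V.Chain
import Pool.Agent.Work.MP_659252_gt.SP.X.Exam
import Pool.Agent.Work.MP_659252_gt.Y.Fin

/-!
# Final assembly.  Size: M.

PROOF.  `suf`: for nonempty `ι` `chain` with `S = Finset.univ`, then `Y.main` (first part) for `M, T', B'` (`lo = a`, `hi = max a c`).  For empty `ι` the sum is `0`; `InT 0`: `conf (exM 3 ..) (1/4) 0 = 0` in dimension `d` with the family `exM d 1` and `Y.main` with `B = 0`.
`inT_conf`: `Y.main`.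
`nonadd`: `ι = Bool` (or `Fin 2`), `A b = exM d (±1)`, `T = 1/4`.  `ex_not` gives `hne` and that neither is `Inside` the other (at `s = t = 1/8`).  By `nec` the left side of the equivalence fails: there are profiles with `¬ InT (sum)`; `h₁ = conf .. (B true)`, `h₂ = conf .. (B false)` are
in `InT` by `inT_conf`, and the sum over `Bool` is `h₁ + h₂` (`Fintype.sum_bool`).
-/

namespace Pool.Agent.Work.MP_659252_gt.SP

open scoped ContDiff Topology
open Pool.Agent.Work.MP_659252_gt.Z (V Ten val Tan InT)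
open Pool.Agent.Work.MP_659252_gt.Y (Path Q AX dot Nested lev conf)
open Pool.Agent.Work.MP_659252_gt.QR (gr D2 Layered SymTen dir Bump Kq Loc Mat bil mul)

variable {d : ℕ}

theorem inT_conf (hd : 3 ≤ d) (A : Path d) (T : ℝ) (hA : Solid A T) (B : ℝ → ℝ) (hB : Prof T B) :
    InT (conf A T B) := by
  obtain ⟨hB0, a, c, ha, hc, hs⟩ := hB
  have hT := hA.pos
  refine (Y.main d hd A T hA.nested B hB0 (min a (T / 2)) (max c (T / 2))
    (lt_min ha (by linarith)) ?_ (max_lt hc (by linarith)) fun s hs' => hs s fun h => hs' ?_).1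
  · exact (min_le_right _ _).trans (le_max_right _ _)
  · exact ⟨(min_le_left _ _).trans h.1, h.2.trans (le_max_left _ _)⟩

theorem suf (hd : 3 ≤ d) (ι : Type) [Fintype ι] (A : ι → Path d) (T : ι → ℝ) (hA : ∀ i, Solid (A i) (T i))
    (hch : ∀ i j, i ≠ j → Inside (A i) (T i) (A j) (T j) ∨ Inside (A j) (T j) (A i) (T i))
    (B : ι → ℝ → ℝ) (hB : ∀ i, Prof (T i) (B i)) :
    InT (fun x k l => ∑ i, conf (A i) (T i) (B i) x k l) := by
  rcases isEmpty_or_nonempty ι with he | hn
  · have h0 : InT (conf (exM d 1) (1 / 4) (fun _ => 0)) := by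
      refine inT_conf hd _ _ (ex_solid (by omega) 1 (Or.inl rfl)) _ ⟨contDiff_const, 1 / 8, 1 / 8,
        by norm_num, by norm_num, fun _ _ => rfl⟩
    have h1 : (fun x k l => ∑ i, conf (A i) (T i) (B i) x k l) =
        conf (exM d 1) (1 / 4) (fun _ => 0) := by
      funext x k l
      simp [conf]
    rw [h1]
    exact h0
  · obtain ⟨M, T', B', hM, hB', hc⟩ := chain ι A T hA hch Finset.univ Finset.univ_nonempty B hB
    have h1 : (fun x k l => ∑ i, conf (A i) (T i) (B i) x k l) = conf M T' B' := by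
      funext x k l
      exact (hc x k l).symm
    rw [h1]
    exact inT_conf hd M T' hM B' hB'

theorem nonadd (hd : 3 ≤ d) : ∃ h₁ h₂ : Ten d, InT h₁ ∧ InT h₂ ∧ ¬ InT (h₁ + h₂) := by
  by_contra hcon
  push Not at hcon
  have hd1 : 1 ≤ d := by omega
  set A : Bool → Path d := fun b => exM d (if b then 1 else -1) with hA
  have hsol : ∀ b, Solid (A b) ((fun _ : Bool => (1 / 4 : ℝ)) b) := by
    intro b
    cases b
    · exact ex_solid hd1 (-1) (Or.inr rfl)
    · exact ex_solid hd1 1 (Or.inl rfl)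
  have hpt : ∀ i j : Bool, i ≠ j → ∀ s ∈ Set.Ioo (0 : ℝ) (1 / 4), ∀ t ∈ Set.Ioo (0 : ℝ) (1 / 4),
      ∃ x : V d, Q (A i) s x x < 0 ∧ 0 < Q (A j) t x x := by
    intro i j hij s hs t ht
    cases i <;> cases j
    · exact absurd rfl hij
    · have h1 := ex_not hd1 (-1) (Or.inr rfl) s hs t ht
      rw [neg_neg] at h1
      exact ⟨_, h1.1, h1.2⟩
    · exact ⟨_, (ex_not hd1 1 (Or.inl rfl) s hs t ht).1, (ex_not hd1 1 (Or.inl rfl) s hs t ht).2⟩
    · exact absurd rfl hij
  have hnec := nec hd Bool A (fun _ => 1 / 4) hsol ?_ ?_ true false (by decide)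
  · have hm : (1 / 8 : ℝ) ∈ Set.Ioo (0 : ℝ) (1 / 4) := ⟨by norm_num, by norm_num⟩
    rcases hnec with h | h
    · obtain ⟨x, h1, h2⟩ := hpt true false (by decide) (1 / 8) hm (1 / 8) hm
      have := h (1 / 8) hm (1 / 8) hm x h1.le
      linarith
    · obtain ⟨x, h1, h2⟩ := hpt false true (by decide) (1 / 8) hm (1 / 8) hm
      have := h (1 / 8) hm (1 / 8) hm x h1.le
      linarith
  · intro i j hij s hs t ht
    obtain ⟨x, h1, h2⟩ := hpt i j hij s hs t ht
    exact ⟨x, fun h => absurd (h.1 h1.le) (not_le.2 h2)⟩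
  · intro B hB
    have h1 : (fun x k l => ∑ i, conf (A i) (1 / 4) (B i) x k l) =
        conf (A true) (1 / 4) (B true) + conf (A false) (1 / 4) (B false) := by
      funext x k l
      rw [Fintype.sum_bool]
      rfl
    have h2 := hcon _ _ (inT_conf hd _ _ (hsol true) (B true) (hB true))
      (inT_conf hd _ _ (hsol false) (B false) (hB false))
    rw [← h1] at h2
    exact h2

end Pool.Agent.Work.MP_659252_gt.SP
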