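import Pool.Agent.Work.MP_659252_gt.QR.Bas

/-!
# Quadratic forms of Lorentz type
-/

namespace Pool.Agent.Work.MP_659252_gt.SP

open scoped ContDiff Topology
open Pool.Agent.Work.MP_659252_gt.Z (V Ten val Tan InT)
open Pool.Agent.Work.MP_659252_gt.QR

variable {d : ℕ}

/-- The quadratic form of `M` is positive on the hyperplane `x 0 = 0` and negative somewhere. -/
structure Lor (M : Mat d) : Prop where
  symm : ∀ i j, M i j = M j i
  pos : ∀ z : V d, z ≠ 0 → z 0 = 0 → 0 < bil M z z
  neg : ∃ x : V d, bil M x x < 0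

/-- There is no common tangent plane of the cones of `M₁` and `M₂` with different rays of contact. -/
def NoCT (M₁ M₂ : Mat d) : Prop :=
  ∀ P Y : V d, P ≠ 0 → bil M₂ P P = 0 → bil M₁ Y Y = 0 → mul M₂ P = mul M₁ Y → ∃ c : ℝ, P = c • Y

end Pool.Agent.Work.MP_659252_gt.SP
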